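import Pool.Agent.H80.TriCluster

/-!
MP_f3d4cd_co: for every `n ≥ 3` there is a graph of strong convex dimension 2 on `n` vertices
with `2n - 6` edges.
-/

namespace Pool.Agent.Results.MP_f3d4cd_co.LowerBound

open Pool.Agent.H80

theorem result : ∀ n : ℕ, 3 ≤ n →
    (∃ G : SimpleGraph (Fin n), StrongConvexDimTwo G ∧ G.edgeSet.ncard = 2 * n - 6) ∧
      2 * n - 6 ≤ gss n := by
  intro n hn
  obtain ⟨G, hG, hcard⟩ := Tri.lower_all n hn
  refine ⟨⟨G, hG, hcard⟩, ?_⟩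
  unfold gss
  refine le_csSup ?_ ⟨G, hG, hcard⟩
  refine ⟨Nat.card (Sym2 (Fin n)), ?_⟩
  rintro k ⟨G', _, rfl⟩
  rw [← Set.ncard_univ]
  exact Set.ncard_le_ncard (Set.subset_univ _) (Set.toFinite _)

end Pool.Agent.Results.MP_f3d4cd_co.LowerBound
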