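import Pool.Agent.H80.UpperFinal

/-!
MP_f3d4cd_co: every graph of strong convex dimension 2 on `n ≥ 4` vertices has at most
`2n - 4` edges.
-/

namespace Pool.Agent.Results.MP_f3d4cd_co.UpperBound

open Pool.Agent.H80

theorem result : ∀ n : ℕ, 4 ≤ n →
    (∀ G : SimpleGraph (Fin n), StrongConvexDimTwo G → G.edgeSet.ncard ≤ 2 * n - 4) ∧
      gss n ≤ 2 * n - 4 := by
  intro n hn
  have h : ∀ G : SimpleGraph (Fin n), StrongConvexDimTwo G → G.edgeSet.ncard ≤ 2 * n - 4 := by
    intro G hG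
    have := upper_graph hn G hG
    omega
  refine ⟨h, ?_⟩
  unfold gss
  refine csSup_le' ?_
  rintro k ⟨G, hG, rfl⟩
  exact h G hG

end Pool.Agent.Results.MP_f3d4cd_co.UpperBound
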